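import Pool.Agent.Helper97.Tate.Goals
import Pool.Agent.Helper31.FewP.MIN

set_option autoImplicit false

namespace Pool.Agent.Helper36.Tate.MNR

open Pool.Agent.Helper97.Tate Module

theorem t : S_MNR := by
  intro K _ R C _ _ A ρ
  classical
  constructor
  · intro h
    rw [Matrix.rank_eq_finrank_span_cols] at h
    obtain ⟨κ, a, ha, hsp, hli⟩ := exists_linearIndependent' K A.col
    have hfk : Finite κ := Finite.of_injective a ha
    have : Fintype κ := Fintype.ofFinite κ
    have hcard : ρ ≤ Fintype.card κ := by
      rw [← finrank_span_eq_card hli, hsp]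
      exact h
    have e : Fin (Fintype.card κ) ≃ κ := (Fintype.equivFin κ).symm
    obtain ⟨f, -, hf⟩ := Pool.Agent.Helper31.FewP.MIN.t K R (Fin ρ)
      (fun c => A.col (a (e (Fin.castLE hcard c))))
      (hli.comp (fun c => e (Fin.castLE hcard c))
        (e.injective.comp (Fin.castLE_injective hcard)))
    refine ⟨f, fun c => a (e (Fin.castLE hcard c)), ?_⟩
    exact hf
  · rintro ⟨f, g, hdet⟩
    have hli : LinearIndependent K (fun c : Fin ρ => A.col (g c)) := by
      rw [Fintype.linearIndependent_iff]
      intro w hw
      have h1 : (A.submatrix f g).mulVec w = 0 := by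
        funext x
        have h2 := congrFun hw (f x)
        simp only [Finset.sum_apply, Pi.smul_apply, smul_eq_mul, Pi.zero_apply] at h2
        rw [Matrix.mulVec, dotProduct, Pi.zero_apply, ← h2]
        apply Finset.sum_congr rfl
        intro c _
        rw [mul_comm]
        rfl
      have h3 := Matrix.eq_zero_of_mulVec_eq_zero hdet h1
      intro i
      rw [h3]
      rfl
    have h4 := finrank_span_eq_card hli
    rw [Fintype.card_fin] at h4
    rw [Matrix.rank_eq_finrank_span_cols, ← h4]
    apply Submodule.finrank_mono
    apply Submodule.span_mono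
    rintro _ ⟨c, rfl⟩
    exact ⟨g c, rfl⟩

end Pool.Agent.Helper36.Tate.MNR
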