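import Pool.Agent.Helper97.Tate.Goals

set_option autoImplicit false

namespace Pool.Agent.Helper36.Tate.THZ

open Pool.Agent.Helper97.Tate

section

variable {k : Type} [Field k]

noncomputable def Ev (x : kˣ) (α : ℕ) (u : LaurentPolynomial k) : k :=
  u.coeff.sum (fun n a => a * (((x ^ n : kˣ) : k) * ((Ring.choose n α : ℤ) : k)))

theorem Ev_add (x : kˣ) (α : ℕ) (u v : LaurentPolynomial k) :
    Ev x α (u + v) = Ev x α u + Ev x α v := by
  unfold Ev
  rw [AddMonoidAlgebra.coeff_add]
  apply Finsupp.sum_add_index'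
  · intro a
    rw [zero_mul]
  · intro a b c
    rw [add_mul]

theorem Ev_CT (x : kˣ) (α : ℕ) (a : k) (n : ℤ) :
    Ev x α (LaurentPolynomial.C a * LaurentPolynomial.T n) =
      a * (((x ^ n : kˣ) : k) * ((Ring.choose n α : ℤ) : k)) := by
  unfold Ev
  rw [← LaurentPolynomial.single_eq_C_mul_T, AddMonoidAlgebra.coeff_single,
    Finsupp.sum_single_index]
  rw [zero_mul]

theorem Ev_T (x : kˣ) (α : ℕ) (n : ℤ) :
    Ev x α (LaurentPolynomial.T n) = ((x ^ n : kˣ) : k) * ((Ring.choose n α : ℤ) : k) := by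
  have := Ev_CT x α 1 n
  rwa [map_one, one_mul, one_mul] at this

theorem coeff_eq_cf (f : SS k) (N : ℕ) (n : ℤ) :
    (PowerSeries.coeff N f : LaurentPolynomial k).coeff n = cf f N n := by
  unfold cf
  simp

end

theorem t (hTHC : S_THC) (hEVC : S_EVC) : S_THZ := by
  intro k _ w x
  classical
  obtain ⟨c, hc⟩ : ∃ c : k, c = -((w⁻¹ : kˣ) : k) := ⟨_, rfl⟩
  have hcw : c * (w : k) = -1 := by
    rw [hc, neg_mul, Units.inv_mul]
  have hc0 : c ≠ 0 := by
    rw [hc, neg_ne_zero]
    exact Units.ne_zero _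
  have hth : th w = Th 1 0 c := by rw [hc]; rfl
  obtain ⟨h1, -, h3⟩ := hTHC k 1 0 c hc0 le_rfl (by norm_num)
  rw [if_pos rfl] at h3
  have halg : ∀ (y : kˣ) (f : SS k) (α N : ℕ), Ev y α (PowerSeries.coeff N f) ≠ 0 →
      PowerSeries.coeff α (evK y f) ≠ 0 := by
    intro y f α N h h0
    rw [(hEVC k y f N α).2.1] at h0
    have h4 : PowerSeries.coeff α (evx y f) = 0 :=
      (IsFractionRing.injective (OO k) (KK k)) (h0.trans (map_zero _).symm)
    apply h
    have h5 := (hEVC k y f N α).1
    rw [h4, map_zero] at h5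
    exact h5.symm
  have hcc : ∀ (y : kˣ) (α : ℕ), Ev y α (PowerSeries.coeff 0 (th w)) =
      Ev y α (LaurentPolynomial.T 0) +
        Ev y α (LaurentPolynomial.C c * LaurentPolynomial.T ((1 : ℕ) : ℤ)) := by
    intro y α
    rw [← Ev_add, LaurentPolynomial.T_zero, ← h3, hth]
    simp
  refine ⟨?_, ?_, ?_, ?_⟩
  · rw [← PowerSeries.coeff_zero_eq_constantCoeff_apply, (hEVC k w (th w) 0 0).2.1]
    have h4 : PowerSeries.coeff 0 (evx w (th w)) = 0 := by
      ext N
      rw [(hEVC k w (th w) N 0).1, hth, Finsupp.sum]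
      have hF : ∀ n : ℤ, (PowerSeries.coeff N (Th 1 0 c) : LaurentPolynomial k).coeff n =
          if n * (n - 1) / 2 = (N : ℤ) then c ^ n else 0 := by
        intro n
        rw [coeff_eq_cf, h1]
        simp [qe]
      rw [map_zero]
      apply Finset.sum_involution (fun n _ => 1 - n)
      · intro n hn
        rw [Finsupp.mem_support_iff, hF] at hn
        have hn1 : n * (n - 1) / 2 = (N : ℤ) := by
          by_contra h
          rw [if_neg h] at hn
          exact hn rfl
        have hn2 : (1 - n) * ((1 - n) - 1) / 2 = (N : ℤ) := by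
          rw [← hn1]
          congr 1
          ring
        rw [hF, hF, if_pos hn1, if_pos hn2, Ring.choose_zero_right, Ring.choose_zero_right,
          Int.cast_one, mul_one, mul_one, Units.val_zpow_eq_zpow_val, Units.val_zpow_eq_zpow_val,
          ← mul_zpow, ← mul_zpow, hcw]
        rcases Int.even_or_odd n with h | h
        · rw [h.neg_one_zpow, (show Odd (1 - n) by
            obtain ⟨r, hr⟩ := h
            exact ⟨-r, by omega⟩).neg_one_zpow]
          ring
        · rw [h.neg_one_zpow, (show Even (1 - n) by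
            obtain ⟨r, hr⟩ := h
            exact ⟨-r, by omega⟩).neg_one_zpow]
          ring
      · intro n _ _
        omega
      · intro n _
        omega
      · intro n hn
        rw [Finsupp.mem_support_iff, hF] at hn ⊢
        have hn1 : n * (n - 1) / 2 = (N : ℤ) := by
          by_contra h
          rw [if_neg h] at hn
          exact hn rfl
        have hn2 : (1 - n) * ((1 - n) - 1) / 2 = (N : ℤ) := by
          rw [← hn1]
          congr 1
          ring
        rw [if_pos hn2]
        exact zpow_ne_zero _ hc0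
    rw [h4, map_zero]
  · apply halg w (th w) 1 0
    rw [hcc, Ev_T, Ev_CT]
    simp only [Nat.cast_one, zpow_one, zpow_zero]
    have e1 : (Ring.choose (0 : ℤ) 1 : ℤ) = 0 := by simp [Ring.choose_one_right]
    have e2 : (Ring.choose (1 : ℤ) 1 : ℤ) = 1 := by simp [Ring.choose_one_right]
    rw [e1, e2, Int.cast_zero, mul_zero, zero_add, Int.cast_one, mul_one, hcw]
    exact neg_ne_zero.2 one_ne_zero
  · intro hxw
    rw [← PowerSeries.coeff_zero_eq_constantCoeff_apply]
    apply halg x (th w) 0 0
    rw [hcc, Ev_T, Ev_CT]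
    simp only [Nat.cast_one, zpow_one, zpow_zero, Ring.choose_zero_right, Int.cast_one, mul_one,
      Units.val_one]
    intro h
    apply hxw
    apply Units.ext
    have h5 : (x : k) * ((w⁻¹ : kˣ) : k) = 1 := by
      rw [hc] at h
      linear_combination -h
    calc (x : k) = (x : k) * (((w⁻¹ : kˣ) : k) * (w : k)) := by rw [Units.inv_mul, mul_one]
      _ = (x : k) * ((w⁻¹ : kˣ) : k) * (w : k) := by ring
      _ = w := by rw [h5, one_mul]
  · intro κ c' hκ hc'
    obtain ⟨-, -, h6⟩ := hTHC k κ 1 c' hc' (by norm_num) (by exact_mod_cast hκ)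
    rw [if_neg one_ne_zero] at h6
    rw [← PowerSeries.coeff_zero_eq_constantCoeff_apply]
    apply halg x (Th κ 1 c') 0 0
    rw [PowerSeries.coeff_zero_eq_constantCoeff_apply, h6, Ev_T]
    simp

end Pool.Agent.Helper36.Tate.THZ
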